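import Mathlib

namespace Pool.Agent.H.MP_97dcc2_an

open Set Topology Filter MeasureTheory ContinuousLinearMap
open scoped ContDiff Convolution

variable {E : Type} [NormedAddCommGroup E] [InnerProductSpace ℝ E] [FiniteDimensional ℝ E]
  [MeasurableSpace E] [BorelSpace E] {μ : Measure E} [μ.IsAddHaarMeasure]

noncomputable def D (e : E) (f : E → ℝ) : E → ℝ := fun x => fderiv ℝ f x e

omit [FiniteDimensional ℝ E] [MeasurableSpace E] [BorelSpace E] in
theorem D_smooth (e : E) {f : E → ℝ} (hf : ContDiff ℝ ∞ f) : ContDiff ℝ ∞ (D e f) :=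
  (hf.fderiv_right (m := ∞) le_rfl).clm_apply contDiff_const

omit [FiniteDimensional ℝ E] [MeasurableSpace E] [BorelSpace E] in
theorem D_supp (e : E) {f : E → ℝ} (hf : HasCompactSupport f) : HasCompactSupport (D e f) :=
  hf.fderiv_apply ℝ e

omit [FiniteDimensional ℝ E] [MeasurableSpace E] [BorelSpace E] in
theorem diff {f : E → ℝ} (hf : ContDiff ℝ ∞ f) : Differentiable ℝ f :=
  hf.differentiable (by simp)

theorem ibp (e : E) {f g : E → ℝ} (hf : ContDiff ℝ ∞ f) (hg : ContDiff ℝ ∞ g)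
    (hc : HasCompactSupport g) : ∫ x, f x * D e g x ∂μ = -∫ x, D e f x * g x ∂μ :=
  integral_mul_fderiv_eq_neg_fderiv_mul_of_integrable
    (((D_smooth e hf).continuous.mul hg.continuous).integrable_of_hasCompactSupport hc.mul_left)
    ((hf.continuous.mul (D_smooth e hg).continuous).integrable_of_hasCompactSupport
      (D_supp e hc).mul_left)
    ((hf.continuous.mul hg.continuous).integrable_of_hasCompactSupport hc.mul_left)
    (fun x _ => diff hf x) (fun x _ => diff hg x)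

omit [FiniteDimensional ℝ E] [MeasurableSpace E] [BorelSpace E] in
theorem D_comp (e : E) {w : E → ℝ} (hw : ContDiff ℝ ∞ w) {Φ : ℝ → ℝ} (hΦ : ContDiff ℝ ∞ Φ)
    (x : E) : D e (fun y => Φ (w y)) x = deriv Φ (w x) * D e w x := by
  have h := ((hΦ.differentiable (by simp) (w x)).hasDerivAt.comp_hasFDerivAt x
    (diff hw x).hasFDerivAt).fderiv
  unfold D
  rw [show (fun y => Φ (w y)) = Φ ∘ w from rfl, h]
  simp

omit [FiniteDimensional ℝ E] [MeasurableSpace E] [BorelSpace E] in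
theorem D_mul (e : E) {f g : E → ℝ} (hf : ContDiff ℝ ∞ f) (hg : ContDiff ℝ ∞ g) (x : E) :
    D e (fun y => f y * g y) x = f x * D e g x + g x * D e f x := by
  unfold D
  rw [fderiv_fun_mul (diff hf x) (diff hg x)]
  simp

theorem kato0 (e : E) {w φ : E → ℝ} (hw : ContDiff ℝ ∞ w) (hφ : ContDiff ℝ ∞ φ)
    (hc : HasCompactSupport φ) (h0 : ∀ x, 0 ≤ φ x) {Φ : ℝ → ℝ} (hΦ : ContDiff ℝ ∞ Φ)
    (hd : ∀ t, deriv (deriv Φ) t ≤ 0) :
    ∫ x, Φ (w x) * D e (D e φ) x ∂μ ≤ ∫ x, D e (D e w) x * (deriv Φ (w x) * φ x) ∂μ := by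
  have hΦ1 : ContDiff ℝ ∞ (deriv Φ) := (contDiff_infty_iff_deriv.1 hΦ).2
  have hΦ2 : ContDiff ℝ ∞ (deriv (deriv Φ)) := (contDiff_infty_iff_deriv.1 hΦ1).2
  have h1 := ibp (μ := μ) e (f := fun y => Φ (w y)) (hΦ.comp hw) (D_smooth e hφ) (D_supp e hc)
  have hs : ContDiff ℝ ∞ (fun y => deriv Φ (w y) * φ y) := (hΦ1.comp hw).mul hφ
  have hsc : HasCompactSupport (fun y => deriv Φ (w y) * φ y) := hc.mul_left
  have h2 := ibp (μ := μ) e (D_smooth e hw) hs hsc
  rw [h1, neg_le, ← h2]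
  refine integral_mono ?_ ?_ fun x => ?_
  · exact ((D_smooth e hw).continuous.mul (D_smooth e hs).continuous).integrable_of_hasCompactSupport
      (D_supp e hsc).mul_left
  · exact ((D_smooth e (hΦ.comp hw)).continuous.mul
      (D_smooth e hφ).continuous).integrable_of_hasCompactSupport (D_supp e hc).mul_left
  · simp only
    rw [D_mul e (f := fun y => deriv Φ (w y)) (hΦ1.comp hw) hφ, D_comp e hw hΦ, D_comp e hw hΦ1]
    have := mul_nonneg (mul_nonneg (h0 x) (neg_nonneg.2 (hd (w x)))) (mul_self_nonneg (D e w x))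
    nlinarith

noncomputable def Lp (f : E → ℝ) : E → ℝ :=
  fun x => ∑ i, D (stdOrthonormalBasis ℝ E i) (D (stdOrthonormalBasis ℝ E i) f) x

omit [MeasurableSpace E] [BorelSpace E] in
theorem Lp_eq {f : E → ℝ} (hf : ContDiff ℝ ∞ f) : Laplacian.laplacian f = Lp f := by
  rw [InnerProductSpace.laplacian_eq_iteratedFDeriv_stdOrthonormalBasis]
  funext x
  refine Finset.sum_congr rfl fun i _ => ?_
  rw [iteratedFDeriv_two_apply]
  unfold D
  rw [fderiv_clm_apply ((hf.fderiv_right (m := ∞) le_rfl).differentiable (by simp) x)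
    (differentiableAt_const _)]
  simp

omit [MeasurableSpace E] [BorelSpace E] in
theorem Lp_cont {f : E → ℝ} (hf : ContDiff ℝ ∞ f) : Continuous (Lp f) :=
  continuous_finset_sum _ fun _ _ => (D_smooth _ (D_smooth _ hf)).continuous

omit [MeasurableSpace E] [BorelSpace E] in
theorem Lp_bdd {f : E → ℝ} (hf : ContDiff ℝ ∞ f) (hc : HasCompactSupport f) :
    ∃ C, ∀ x, ‖Lp f x‖ ≤ C := by
  refine (Lp_cont hf).bounded_above_of_compact_support ?_
  have : Lp f = ∑ i, D (stdOrthonormalBasis ℝ E i) (D (stdOrthonormalBasis ℝ E i) f) := by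
    funext x
    simp [Lp]
  rw [this]
  refine Finset.sum_induction _ _ (fun a b ha hb => ha.add hb) HasCompactSupport.zero
    fun i _ => D_supp _ (D_supp _ hc)

theorem kato1 {w φ : E → ℝ} (hw : ContDiff ℝ ∞ w) (hφ : ContDiff ℝ ∞ φ)
    (hc : HasCompactSupport φ) (h0 : ∀ x, 0 ≤ φ x) {Φ : ℝ → ℝ} (hΦ : ContDiff ℝ ∞ Φ)
    (hd : ∀ t, deriv (deriv Φ) t ≤ 0) :
    ∫ x, Φ (w x) * Lp φ x ∂μ ≤ ∫ x, Lp w x * (deriv Φ (w x) * φ x) ∂μ := by
  have hΦ1 : ContDiff ℝ ∞ (deriv Φ) := (contDiff_infty_iff_deriv.1 hΦ).2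
  simp only [Lp, Finset.mul_sum, Finset.sum_mul]
  rw [integral_finset_sum, integral_finset_sum]
  · exact Finset.sum_le_sum fun i _ => kato0 _ hw hφ hc h0 hΦ hd
  · intro i _
    exact ((D_smooth _ (D_smooth _ hw)).continuous.mul
      ((hΦ1.comp hw).mul hφ).continuous).integrable_of_hasCompactSupport hc.mul_left.mul_left
  · intro i _
    exact ((hΦ.comp hw).continuous.mul
      (D_smooth _ (D_smooth _ hφ)).continuous).integrable_of_hasCompactSupport
      (D_supp _ (D_supp _ hc)).mul_left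

theorem D_conv (e : E) {U ρ : E → ℝ} (hU : Integrable U μ) (hρ : ContDiff ℝ ∞ ρ)
    (hc : HasCompactSupport ρ) : D e (U ⋆[lsmul ℝ ℝ, μ] ρ) = U ⋆[lsmul ℝ ℝ, μ] D e ρ := by
  funext x
  unfold D
  rw [(hc.hasFDerivAt_convolution_right (lsmul ℝ ℝ) hU.locallyIntegrable
    (hρ.of_le (by simp)) x).fderiv, convolution_precompR_apply (lsmul ℝ ℝ) hU.locallyIntegrable
    (hc.fderiv ℝ) (hρ.continuous_fderiv (by simp))]

omit [FiniteDimensional ℝ E] [MeasurableSpace E] [BorelSpace E] in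
theorem D_refl (e x : E) {ρ : E → ℝ} (hρ : ContDiff ℝ ∞ ρ) :
    D e (fun t => ρ (x - t)) = fun t => -D e ρ (x - t) := by
  funext t
  have h := ((diff hρ (x - t)).hasFDerivAt.comp t ((hasFDerivAt_id t).const_sub x)).fderiv
  unfold D
  rw [show (fun t => ρ (x - t)) = ρ ∘ HSub.hSub x from rfl, h]
  simp

omit [FiniteDimensional ℝ E] [MeasurableSpace E] [BorelSpace E] in
theorem DD_refl (e x : E) {ρ : E → ℝ} (hρ : ContDiff ℝ ∞ ρ) (t : E) :
    D e (D e (fun t => ρ (x - t))) t = D e (D e ρ) (x - t) := by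
  rw [D_refl e x hρ]
  have h := congrFun (D_refl e x (D_smooth e hρ)) t
  unfold D at h ⊢
  rw [fderiv_fun_neg, ContinuousLinearMap.neg_apply, h, neg_neg]

theorem Lp_conv {U ρ : E → ℝ} (hU : Integrable U μ) (hρ : ContDiff ℝ ∞ ρ)
    (hc : HasCompactSupport ρ) (x : E) :
    Lp (U ⋆[lsmul ℝ ℝ, μ] ρ) x = ∫ t, U t * Lp (fun t => ρ (x - t)) t ∂μ := by
  simp only [Lp, Finset.mul_sum]
  rw [integral_finset_sum]
  · refine Finset.sum_congr rfl fun i _ => ?_
    rw [D_conv _ hU hρ hc, D_conv _ hU (D_smooth _ hρ) (D_supp _ hc), convolution_lsmul]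
    simp only [DD_refl _ x hρ, smul_eq_mul]
  · intro i _
    simp only [DD_refl _ x hρ]
    exact (D_supp _ (D_supp _ hc)).convolutionExists_right (lsmul ℝ ℝ) hU.locallyIntegrable
      (D_smooth _ (D_smooth _ hρ)).continuous x

theorem scheffe {α : Type} [MeasurableSpace α] {ν : Measure α} {f : ℕ → α → ℝ} {g : α → ℝ}
    (hf : ∀ n, Integrable (f n) ν) (hg : Integrable g ν)
    (h1 : ∀ᵐ x ∂ν, Tendsto (fun n => f n x) atTop (𝓝 (g x)))
    (h2 : ∀ n, ∫ x, |f n x| ∂ν ≤ ∫ x, |g x| ∂ν) :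
    Tendsto (fun n => ∫ x, |f n x - g x| ∂ν) atTop (𝓝 0) := by
  have h3 : Tendsto (fun n => ∫ x, |f n x - g x| - |f n x| + |g x| ∂ν) atTop
      (𝓝 (∫ _ : α, (0 : ℝ) ∂ν)) := by
    refine tendsto_integral_of_dominated_convergence (fun x => 2 * |g x|)
      (fun n => ((((hf n).sub hg).abs.sub (hf n).abs).add hg.abs).aestronglyMeasurable)
      (hg.abs.const_mul 2) (fun n => ae_of_all _ fun x => ?_) ?_
    · have a1 := abs_sub (f n x) (g x)
      have a2 := abs_sub_abs_le_abs_sub (f n x) (g x)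
      have a3 := abs_nonneg (g x)
      rw [Real.norm_eq_abs, abs_le]
      constructor <;> linarith
    · filter_upwards [h1] with x hx
      have := (((hx.sub_const (g x)).abs.sub hx.abs).add_const |g x|)
      simpa using this
  rw [integral_zero] at h3
  refine squeeze_zero (fun n => integral_nonneg fun x => abs_nonneg _) (fun n => ?_) h3
  have i1 : Integrable (fun x => |f n x - g x|) ν := ((hf n).sub hg).abs
  have i2 : Integrable (fun x => |f n x - g x| - |f n x|) ν := i1.sub (hf n).abs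
  rw [integral_add i2 hg.abs, integral_sub i1 (hf n).abs]
  linarith [h2 n]

theorem lim_mul {α : Type} [MeasurableSpace α] {ν : Measure α} {f : ℕ → α → ℝ} {g c : α → ℝ}
    {Φ : ℝ → ℝ} (hΦ : LipschitzWith 1 Φ) (h0 : Φ 0 = 0)
    (hf : ∀ n, Integrable (f n) ν) (hg : Integrable g ν) (hc : AEStronglyMeasurable c ν) {C : ℝ}
    (hC : ∀ x, ‖c x‖ ≤ C) (h : Tendsto (fun n => ∫ x, |f n x - g x| ∂ν) atTop (𝓝 0)) :
    Tendsto (fun n => ∫ x, Φ (f n x) * c x ∂ν) atTop (𝓝 (∫ x, Φ (g x) * c x ∂ν)) := by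
  have hi : ∀ u : α → ℝ, Integrable u ν → Integrable (fun x => Φ (u x) * c x) ν := by
    intro u hu
    refine Integrable.mul_bdd (c := C) ?_ hc (ae_of_all _ hC)
    exact memLp_one_iff_integrable.1 (hΦ.comp_memLp h0 (memLp_one_iff_integrable.2 hu))
  rw [tendsto_iff_norm_sub_tendsto_zero]
  have h2 := h.const_mul C
  rw [mul_zero] at h2
  refine squeeze_zero (fun n => norm_nonneg _) (fun n => ?_) h2
  rw [← integral_sub (hi _ (hf n)) (hi _ hg), ← integral_const_mul]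
  refine norm_integral_le_of_norm_le (((hf n).sub hg).abs.const_mul C) (ae_of_all _ fun x => ?_)
  have h3 := hΦ.dist_le_mul (f n x) (g x)
  rw [Real.dist_eq, Real.dist_eq, NNReal.coe_one, one_mul] at h3
  rw [← sub_mul, norm_mul, mul_comm]
  exact mul_le_mul (hC x) h3 (abs_nonneg _) ((norm_nonneg _).trans (hC x))

theorem moll : ∃ ρ : ℕ → E → ℝ, (∀ j, ContDiff ℝ ∞ (ρ j)) ∧ (∀ j, HasCompactSupport (ρ j)) ∧
    (∀ j x, 0 ≤ ρ j x) ∧ (∀ j x, ρ j x ≠ 0 → ‖x‖ < 1 / ((j : ℝ) + 1)) ∧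
    ∀ U : E → ℝ, Integrable U μ → (∀ j, Integrable (U ⋆[lsmul ℝ ℝ, μ] ρ j) μ) ∧
      (∀ᵐ x ∂μ, Tendsto (fun j => (U ⋆[lsmul ℝ ℝ, μ] ρ j) x) atTop (𝓝 (U x))) ∧
      Tendsto (fun j => ∫ x, |(U ⋆[lsmul ℝ ℝ, μ] ρ j) x - U x| ∂μ) atTop (𝓝 0) := by
  let b : ℕ → ContDiffBump (0 : E) := fun j =>
    ⟨1 / ((j : ℝ) + 1) / 2, 1 / ((j : ℝ) + 1), half_pos Nat.one_div_pos_of_nat,
      half_lt_self Nat.one_div_pos_of_nat⟩
  refine ⟨fun j => (b j).normed μ, fun j => (b j).contDiff_normed,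
    fun j => (b j).hasCompactSupport_normed, fun j x => (b j).nonneg_normed x, fun j x hx => ?_,
    fun U hU => ?_⟩
  · have : x ∈ Function.support ((b j).normed μ) := hx
    rw [ContDiffBump.support_normed_eq] at this
    exact mem_ball_zero_iff.1 this
  · have h1 : ∀ j, Integrable (U ⋆[lsmul ℝ ℝ, μ] (b j).normed μ) μ := fun j =>
      hU.integrable_convolution _ (b j).integrable_normed
    have h2 : ∀ᵐ x ∂μ, Tendsto (fun j => (U ⋆[lsmul ℝ ℝ, μ] (b j).normed μ) x) atTop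
        (𝓝 (U x)) := by
      have := ContDiffBump.ae_convolution_tendsto_right_of_locallyIntegrable (μ := μ) (φ := b)
        (l := atTop) (K := 2) tendsto_one_div_add_atTop_nhds_zero_nat
        (Eventually.of_forall fun j => le_of_eq (by simp only [b]; ring)) hU.locallyIntegrable
      filter_upwards [this] with x hx
      simpa only [convolution_lsmul_swap (f := (b _).normed μ), convolution_lsmul (f := U),
        smul_eq_mul, mul_comm] using hx
    refine ⟨h1, h2, scheffe h1 hU h2 fun j => ?_⟩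
    have h3 := integral_convolution (L := lsmul ℝ ℝ) (ν := μ) (μ := μ) hU.abs
      (b j).integrable_normed
    rw [ContDiffBump.integral_normed, lsmul_apply, smul_eq_mul, mul_one] at h3
    rw [← h3]
    refine integral_mono (h1 j).abs (hU.abs.integrable_convolution _ (b j).integrable_normed)
      fun x => ?_
    simp only [convolution_lsmul, smul_eq_mul]
    refine abs_integral_le_integral_abs.trans (le_of_eq ?_)
    simp only [abs_mul, abs_of_nonneg ((b j).nonneg_normed _)]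

theorem kato {Om : Set E} (hO : IsOpen Om) {U F : E → ℝ} (hU : Integrable U μ)
    (hF : Integrable F μ)
    (hS : ∀ ψ : E → ℝ, ContDiff ℝ ∞ ψ → HasCompactSupport ψ → tsupport ψ ⊆ Om →
      (∀ x, 0 ≤ ψ x) → ∫ x, U x * Lp ψ x ∂μ ≤ ∫ x, F x * ψ x ∂μ)
    {φ : E → ℝ} (hφ : ContDiff ℝ ∞ φ) (hc : HasCompactSupport φ) (hs : tsupport φ ⊆ Om)
    (h0 : ∀ x, 0 ≤ φ x) {Φ : ℝ → ℝ} (hΦ : ContDiff ℝ ∞ Φ) (hd : ∀ t, deriv (deriv Φ) t ≤ 0)
    (hL : LipschitzWith 1 Φ) (hz : Φ 0 = 0) (hp : ∀ t, 0 ≤ deriv Φ t) (hq : ∀ t, deriv Φ t ≤ 1) :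
    ∫ x, Φ (U x) * Lp φ x ∂μ ≤ ∫ x, F x * (deriv Φ (U x) * φ x) ∂μ := by
  have hΦ1 : ContDiff ℝ ∞ (deriv Φ) := (contDiff_infty_iff_deriv.1 hΦ).2
  obtain ⟨ρ, r1, r2, r3, r4, r5⟩ := moll (E := E) (μ := μ)
  obtain ⟨u1, u2, u3⟩ := r5 U hU
  obtain ⟨f1, -, f3⟩ := r5 F hF
  obtain ⟨δ, hδ, hδ2⟩ := hc.isCompact.exists_cthickening_subset_open hO hs
  obtain ⟨C, hC⟩ := Lp_bdd hφ hc
  obtain ⟨B, hB⟩ := hφ.continuous.bounded_above_of_compact_support hc
  have hw : ∀ j, ContDiff ℝ ∞ (U ⋆[lsmul ℝ ℝ, μ] ρ j) := fun j =>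
    (r2 j).contDiff_convolution_right _ hU.locallyIntegrable (r1 j)
  have hbd : ∀ t x, ‖deriv Φ t * φ x‖ ≤ B := by
    intro t x
    rw [norm_mul, Real.norm_eq_abs, abs_of_nonneg (hp t)]
    exact (mul_le_of_le_one_left (norm_nonneg _) (hq t)).trans (hB x)
  have hm : ∀ j, Continuous fun x => deriv Φ ((U ⋆[lsmul ℝ ℝ, μ] ρ j) x) * φ x := fun j =>
    ((hΦ1.comp (hw j)).mul hφ).continuous
  have l1 := lim_mul hL hz u1 hU (Lp_cont hφ).aestronglyMeasurable hC u3
  have l2 : Tendsto (fun j => ∫ x, F x * (deriv Φ ((U ⋆[lsmul ℝ ℝ, μ] ρ j) x) * φ x) ∂μ) atTop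
      (𝓝 (∫ x, F x * (deriv Φ (U x) * φ x) ∂μ)) := by
    refine tendsto_integral_of_dominated_convergence (fun x => ‖F x‖ * B)
      (fun j => hF.1.mul (hm j).aestronglyMeasurable) (hF.norm.mul_const B)
      (fun j => ae_of_all _ fun x => ?_) ?_
    · rw [norm_mul]
      exact mul_le_mul_of_nonneg_left (hbd _ _) (norm_nonneg _)
    · filter_upwards [u2] with x hx
      exact (((hΦ1.continuous.tendsto _).comp hx).mul_const _).const_mul _
  have l3 := l2.add (f3.const_mul B)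
  rw [mul_zero, add_zero] at l3
  refine le_of_tendsto_of_tendsto l1 l3 ?_
  filter_upwards [tendsto_one_div_add_atTop_nhds_zero_nat.eventually (gt_mem_nhds hδ)] with j hj
  refine (kato1 (hw j) hφ hc h0 hΦ hd).trans ?_
  have i1 : Integrable (fun x => F x * (deriv Φ ((U ⋆[lsmul ℝ ℝ, μ] ρ j) x) * φ x)) μ :=
    hF.mul_bdd (hm j).aestronglyMeasurable (ae_of_all _ fun x => hbd _ x)
  have i2 : Integrable (fun x => B * |(F ⋆[lsmul ℝ ℝ, μ] ρ j) x - F x|) μ :=
    ((f1 j).sub hF).abs.const_mul B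
  rw [← integral_const_mul, ← integral_add i1 i2]
  refine integral_mono (((Lp_cont (hw j)).mul (hm j)).integrable_of_hasCompactSupport
    hc.mul_left.mul_left) (i1.add i2) fun x => ?_
  simp only
  have hnn := mul_nonneg (hp ((U ⋆[lsmul ℝ ℝ, μ] ρ j) x)) (h0 x)
  have hle := (le_abs_self _).trans (hbd ((U ⋆[lsmul ℝ ℝ, μ] ρ j) x) x)
  have hab := abs_nonneg ((F ⋆[lsmul ℝ ℝ, μ] ρ j) x - F x)
  by_cases hx : φ x = 0
  · simp only [hx, mul_zero, zero_add] at hle ⊢
    exact mul_nonneg hle hab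
  · have hsup : Function.support (fun t => ρ j (x - t)) ⊆ Metric.closedBall x δ := by
      intro t ht
      rw [Metric.mem_closedBall, dist_comm, dist_eq_norm]
      exact ((r4 j _ ht).trans hj).le
    have k1 := hS (fun t => ρ j (x - t)) ((r1 j).comp (contDiff_const.sub contDiff_id))
      (HasCompactSupport.of_support_subset_isCompact (isCompact_closedBall x δ) hsup)
      ((closure_minimal hsup Metric.isClosed_closedBall).trans
        ((Metric.closedBall_subset_cthickening (subset_tsupport _ hx) δ).trans hδ2))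
      (fun t => r3 j _)
    rw [← Lp_conv hU (r1 j) (r2 j)] at k1
    change _ ≤ (F ⋆[lsmul ℝ ℝ, μ] ρ j) x at k1
    have k2 := le_abs_self ((F ⋆[lsmul ℝ ℝ, μ] ρ j) x - F x)
    nlinarith [mul_le_mul_of_nonneg_right k1 hnn, mul_le_mul_of_nonneg_right k2 hnn,
      mul_le_mul_of_nonneg_right hle hab]

theorem exPhi (k : ℝ) (hk : 0 ≤ k) : ∃ Φ : ℝ → ℝ, ContDiff ℝ ∞ Φ ∧ (∀ t, deriv (deriv Φ) t ≤ 0) ∧
    LipschitzWith 1 Φ ∧ (∀ t, 0 ≤ deriv Φ t) ∧ (∀ t, deriv Φ t ≤ 1) ∧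
    (∀ t, t ≤ k → Φ t = t ∧ deriv Φ t = 1) ∧ ∀ t, k + 1 ≤ t → deriv Φ t = 0 := by
  let h : ℝ → ℝ := fun t => Real.smoothTransition (k + 1 - t)
  have hs : ContDiff ℝ ∞ h := Real.smoothTransition.contDiff.comp (contDiff_const.sub contDiff_id)
  have hder : ∀ t, HasDerivAt (fun u => ∫ x in (0 : ℝ)..u, h x) (h t) t := fun t =>
    hs.continuous.integral_hasStrictDerivAt 0 t |>.hasDerivAt
  have hd : deriv (fun u => ∫ x in (0 : ℝ)..u, h x) = h := funext fun t => (hder t).deriv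
  have h1 : ∀ t, t ≤ k → h t = 1 := fun t ht => Real.smoothTransition.one_of_one_le (by linarith)
  have ha : Antitone h := fun s t hst => Real.smoothTransition.monotone (by linarith)
  refine ⟨fun u => ∫ x in (0 : ℝ)..u, h x,
    contDiff_infty_iff_deriv.2 ⟨fun t => (hder t).differentiableAt, by rw [hd]; exact hs⟩, ?_, ?_, ?_, ?_, ?_,
    ?_⟩
  · rw [hd]
    exact fun t => ha.deriv_nonpos
  · refine lipschitzWith_of_nnnorm_deriv_le (fun t => (hder t).differentiableAt) fun t => ?_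
    rw [hd, ← NNReal.coe_le_coe, coe_nnnorm, Real.norm_eq_abs,
      abs_of_nonneg (Real.smoothTransition.nonneg _)]
    exact Real.smoothTransition.le_one _
  · rw [hd]
    exact fun t => Real.smoothTransition.nonneg _
  · rw [hd]
    exact fun t => Real.smoothTransition.le_one _
  · rw [hd]
    intro t ht
    refine ⟨?_, h1 t ht⟩
    simp only
    rw [intervalIntegral.integral_congr (g := fun _ => (1 : ℝ))]
    · simp
    · intro x hx
      exact h1 x (hx.2.trans (max_le hk ht))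
  · rw [hd]
    exact fun t ht => Real.smoothTransition.zero_of_nonpos (by linarith)

end Pool.Agent.H.MP_97dcc2_an
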